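import Mathlib

/-! # Degrees of algebraic numbers in finitely generated fields -/

namespace QGr

open Polynomial

/-- Powers of an algebraic number stay linearly independent over a purely transcendental field
(polynomial form). -/
private theorem coeff_zero {s : Set ℝ} (hs : AlgebraicIndependent ℚ ((↑) : s → ℝ)) {y : ℝ}
    (hy : IsAlgebraic ℚ y) (e : ℕ) (he : e < (minpoly ℚ y).natDegree)
    (p : ℕ → MvPolynomial s ℚ)
    (h : ∑ i ∈ Finset.range (e + 1), MvPolynomial.aeval ((↑) : s → ℝ) (p i) * y ^ i = 0)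
    (i : ℕ) (hi : i ≤ e) : p i = 0 := by
  set A := algebraicClosure ℚ ℝ with hA
  have : Algebra.IsAlgebraic ℚ A := algebraicClosure.isAlgebraic ℚ ℝ
  have hs' : AlgebraicIndependent A ((↑) : s → ℝ) := hs.extendScalars A
  have hyA : y ∈ A := mem_algebraicClosure_iff.2 hy
  set Q : MvPolynomial s A := ∑ i ∈ Finset.range (e + 1),
    MvPolynomial.C ((⟨y, hyA⟩ : A) ^ i) * MvPolynomial.map (algebraMap ℚ A) (p i) with hQ
  have hQ0 : MvPolynomial.aeval ((↑) : s → ℝ) Q = 0 := by
    rw [hQ, map_sum, ← h]
    refine Finset.sum_congr rfl fun i _ => ?_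
    rw [map_mul, MvPolynomial.aeval_C, MvPolynomial.aeval_map_algebraMap, mul_comm]
    rfl
  have hQz : Q = 0 := (algebraicIndependent_iff_injective_aeval.1 hs') (by rw [hQ0, map_zero])
  refine MvPolynomial.ext _ _ fun m => ?_
  rw [MvPolynomial.coeff_zero]
  set q : ℚ[X] := ∑ i ∈ Finset.range (e + 1), C (MvPolynomial.coeff m (p i)) * X ^ i with hq
  have hq1 : aeval y q = 0 := by
    have h1 := congrArg (fun P => ((MvPolynomial.coeff m P : A) : ℝ)) hQz
    simp only [MvPolynomial.coeff_zero, ZeroMemClass.coe_zero] at h1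
    rw [← h1, hQ, hq, map_sum, MvPolynomial.coeff_sum]
    push_cast
    refine Finset.sum_congr rfl fun i _ => ?_
    rw [map_mul, aeval_C, map_pow, aeval_X, MvPolynomial.coeff_C_mul, MvPolynomial.coeff_map]
    push_cast
    rw [mul_comm]
    rfl
  have hqd : q.natDegree ≤ e := by
    rw [hq]
    refine natDegree_sum_le_of_forall_le _ _ fun i hi => ?_
    refine (natDegree_C_mul_X_pow_le _ _).trans ?_
    rw [Finset.mem_range] at hi
    omega
  have hq0 : q = 0 := by
    by_contra hne
    have := natDegree_le_natDegree (minpoly.degree_le_of_ne_zero ℚ y hne hq1)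
    omega
  have h2 := congrArg (fun P => Polynomial.coeff P i) hq0
  simp only [Polynomial.coeff_zero] at h2
  rw [hq, finsetSum_coeff] at h2
  simp only [coeff_C_mul, coeff_X_pow] at h2
  rw [Finset.sum_eq_single i] at h2
  · simpa using h2
  · intro j _ hj
    rw [if_neg (Ne.symm hj), mul_zero]
  · intro hni
    exact absurd (Finset.mem_range.2 (by omega)) hni

/-- The degree of an algebraic number does not drop over a purely transcendental field. -/
theorem natDegree_minpoly_le {s : Set ℝ} (hs : AlgebraicIndependent ℚ ((↑) : s → ℝ)) {y : ℝ}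
    (hy : IsAlgebraic ℚ y) :
    (minpoly ℚ y).natDegree ≤ (minpoly (IntermediateField.adjoin ℚ s) y).natDegree := by
  set L := IntermediateField.adjoin ℚ s with hL
  by_contra hlt
  push Not at hlt
  have hint : IsIntegral L y := hy.isIntegral.tower_top
  set g := minpoly L y with hg
  set e := g.natDegree with he
  have hmon : g.Monic := minpoly.monic hint
  have hrep : ∀ c : L, ∃ r t : MvPolynomial s ℚ, t ≠ 0 ∧
      (c : ℝ) * MvPolynomial.aeval ((↑) : s → ℝ) t = MvPolynomial.aeval ((↑) : s → ℝ) r := by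
    intro c
    obtain ⟨r, t, hrt⟩ := (IntermediateField.mem_adjoin_iff ℚ (c : ℝ)).1 c.2
    by_cases ht : MvPolynomial.aeval ((↑) : s → ℝ) t = 0
    · refine ⟨0, 1, one_ne_zero, ?_⟩
      rw [hrt, ht, div_zero, zero_mul, map_zero]
    · refine ⟨r, t, ?_, ?_⟩
      · rintro rfl
        exact ht (map_zero _)
      · rw [hrt, div_mul_cancel₀ _ ht]
  choose r t ht hrt using hrep
  set T : ℕ → MvPolynomial s ℚ := fun i => t (g.coeff i) with hT
  set p : ℕ → MvPolynomial s ℚ := fun i => r (g.coeff i) *
    ∏ j ∈ (Finset.range (e + 1)).erase i, T j with hp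
  have hsum : ∑ i ∈ Finset.range (e + 1), MvPolynomial.aeval ((↑) : s → ℝ) (p i) * y ^ i = 0 := by
    have h1 : ∀ i ∈ Finset.range (e + 1), MvPolynomial.aeval ((↑) : s → ℝ) (p i) * y ^ i =
        (∏ j ∈ Finset.range (e + 1), MvPolynomial.aeval ((↑) : s → ℝ) (T j)) *
          ((g.coeff i : ℝ) * y ^ i) := by
      intro i hi
      rw [hp]
      simp only
      rw [map_mul, map_prod, ← hrt, ← Finset.mul_prod_erase _ _ hi]
      ring
    rw [Finset.sum_congr rfl h1, ← Finset.mul_sum]
    have h2 : ∑ i ∈ Finset.range (e + 1), (g.coeff i : ℝ) * y ^ i = 0 := by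
      have h3 := minpoly.aeval L y
      rw [aeval_eq_sum_range] at h3
      rw [← h3]
      refine Finset.sum_congr rfl fun i _ => ?_
      rw [Algebra.smul_def]
      rfl
    rw [h2, mul_zero]
  have h0 := coeff_zero hs hy e hlt p hsum e le_rfl
  rw [hp] at h0
  simp only at h0
  rcases mul_eq_zero.1 h0 with h1 | h1
  · have h2 := hrt (g.coeff e)
    rw [h1, map_zero] at h2
    have h3 : (g.coeff e : ℝ) = 1 := by
      have : g.coeff e = 1 := hmon
      rw [this]
      rfl
    rw [h3, one_mul] at h2
    apply ht (g.coeff e)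
    exact (algebraicIndependent_iff_injective_aeval.1 hs) (by rw [h2, map_zero])
  · rw [Finset.prod_eq_zero_iff] at h1
    obtain ⟨j, -, hj⟩ := h1
    exact ht _ hj

/-- Every set of real numbers is algebraic over a field over which no algebraic number has a smaller
degree than over `ℚ`. -/
theorem exists_base (S : Set ℝ) : ∃ L : IntermediateField ℚ ℝ,
    (∀ c ∈ S, IsAlgebraic L c) ∧
    ∀ y : ℝ, IsAlgebraic ℚ y → (minpoly ℚ y).natDegree ≤ (minpoly L y).natDegree := by
  obtain ⟨u, -, hu⟩ := exists_maximal_algebraicIndependent (R := ℚ) (∅ : Set ℝ) S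
    (Set.empty_subset S) ((algebraicIndependent_empty_iff ℚ ℝ).mpr
      (FaithfulSMul.algebraMap_injective ℚ ℝ))
  have hu1 : AlgebraicIndependent ℚ ((↑) : u → ℝ) := hu.prop.1
  refine ⟨IntermediateField.adjoin ℚ u, ?_, fun y hy => natDegree_minpoly_le hu1 hy⟩
  intro c hc
  by_contra htr
  have h1 : Transcendental (Algebra.adjoin ℚ u) c := by
    intro halg
    apply htr
    let : Algebra (Algebra.adjoin ℚ u) (IntermediateField.adjoin ℚ u) :=
      (Subalgebra.inclusion (IntermediateField.algebra_adjoin_le_adjoin ℚ u)).toRingHom.toAlgebra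
    have : IsScalarTower (Algebra.adjoin ℚ u) (IntermediateField.adjoin ℚ u) ℝ :=
      IsScalarTower.of_algebraMap_eq (congrFun rfl)
    exact halg.extendScalars (S := IntermediateField.adjoin ℚ u) (Subalgebra.inclusion_injective _)
  have h2 : AlgebraicIndepOn ℚ id (insert c u) := hu.prop.1.insert (by rwa [Set.image_id])
  have h3 := hu.le_of_ge (y := insert c u) ⟨h2, Set.insert_subset hc hu.prop.2⟩
    (Set.subset_insert c u)
  apply htr
  exact isAlgebraic_algebraMap (⟨c, IntermediateField.subset_adjoin ℚ u (h3 (Set.mem_insert c u))⟩ :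
    IntermediateField.adjoin ℚ u)

end QGr
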