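import Mathlib

/-!
# Real RAMs with roots

A real RAM has real registers `R 0, R 1, ...` and index registers `J 0, J 1, ...` (natural numbers).
Its program is a list of instructions: arbitrary real constants, the four field operations,
comparisons, indirect addressing, rounding down, arithmetic of the index registers, jumps, and
`root`: a real root of a polynomial whose coefficients are in real registers.
-/

namespace QGr

open Polynomial

/-- A state of a real RAM: the number of the next instruction, the index registers and the real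
registers. -/
structure St where
  pc : ℕ
  J : ℕ → ℕ
  R : ℕ → ℝ

/-- The instructions. -/
inductive Ins
  /-- `R a := c` -/
  | const (a : ℕ) (c : ℝ)
  /-- `R a := R b + R c` -/
  | add (a b c : ℕ)
  /-- `R a := R b - R c` -/
  | sub (a b c : ℕ)
  /-- `R a := R b * R c` -/
  | mul (a b c : ℕ)
  /-- `R a := R b / R c` (`0` if `R c = 0`) -/
  | div (a b c : ℕ)
  /-- `R a := ` the real root number `J m` (in increasing order, starting with number `0`) of the
  polynomial `R (J i) + R (J i + 1) X + ... + R (J i + J k) X^(J k)`, and `0` if there is none -/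
  | root (a i k m : ℕ)
  /-- `R a := R (J i)` -/
  | load (a i : ℕ)
  /-- `R (J i) := R a` -/
  | store (i a : ℕ)
  /-- `R a := J i` -/
  | cast (a i : ℕ)
  /-- `J i := ⌊R a⌋` (`0` if `R a < 0`) -/
  | floor (i a : ℕ)
  /-- `J i := k` -/
  | iconst (i k : ℕ)
  /-- `J i := J j + J k` -/
  | iadd (i j k : ℕ)
  /-- `J i := J j - J k` (`0` if `J j < J k`) -/
  | isub (i j k : ℕ)
  /-- `J i := J j * J k` -/
  | imul (i j k : ℕ)
  /-- `J i := ⌊J j / J k⌋` (`0` if `J k = 0`) -/
  | idiv (i j k : ℕ)
  /-- `J i := J (J j)` -/
  | iload (i j : ℕ)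
  /-- `J (J i) := J j` -/
  | istore (i j : ℕ)
  /-- go to line `l` if `R a ≤ R b` -/
  | jle (a b l : ℕ)
  /-- go to line `l` if `J i ≤ J j` -/
  | ijle (i j l : ℕ)

/-- The real root number `m` of the polynomial `c 0 + c 1 X + ... + c k X^k`, and `0` if the
polynomial is zero or has at most `m` distinct real roots. -/
noncomputable def realRoot (c : ℕ → ℝ) (k m : ℕ) : ℝ :=
  ((∑ l ∈ Finset.range (k + 1), C (c l) * X ^ l : ℝ[X]).roots.toFinset.sort (· ≤ ·)).getD m 0

open scoped Classical in
/-- The state after the execution of one instruction. -/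
noncomputable def Ins.run (s : St) : Ins → St
  | .const a c => ⟨s.pc + 1, s.J, Function.update s.R a c⟩
  | .add a b c => ⟨s.pc + 1, s.J, Function.update s.R a (s.R b + s.R c)⟩
  | .sub a b c => ⟨s.pc + 1, s.J, Function.update s.R a (s.R b - s.R c)⟩
  | .mul a b c => ⟨s.pc + 1, s.J, Function.update s.R a (s.R b * s.R c)⟩
  | .div a b c => ⟨s.pc + 1, s.J, Function.update s.R a (s.R b / s.R c)⟩
  | .root a i k m => ⟨s.pc + 1, s.J,
      Function.update s.R a (realRoot (fun l => s.R (s.J i + l)) (s.J k) (s.J m))⟩
  | .load a i => ⟨s.pc + 1, s.J, Function.update s.R a (s.R (s.J i))⟩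
  | .store i a => ⟨s.pc + 1, s.J, Function.update s.R (s.J i) (s.R a)⟩
  | .cast a i => ⟨s.pc + 1, s.J, Function.update s.R a (s.J i : ℝ)⟩
  | .floor i a => ⟨s.pc + 1, Function.update s.J i ⌊s.R a⌋₊, s.R⟩
  | .iconst i k => ⟨s.pc + 1, Function.update s.J i k, s.R⟩
  | .iadd i j k => ⟨s.pc + 1, Function.update s.J i (s.J j + s.J k), s.R⟩
  | .isub i j k => ⟨s.pc + 1, Function.update s.J i (s.J j - s.J k), s.R⟩
  | .imul i j k => ⟨s.pc + 1, Function.update s.J i (s.J j * s.J k), s.R⟩
  | .idiv i j k => ⟨s.pc + 1, Function.update s.J i (s.J j / s.J k), s.R⟩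
  | .iload i j => ⟨s.pc + 1, Function.update s.J i (s.J (s.J j)), s.R⟩
  | .istore i j => ⟨s.pc + 1, Function.update s.J (s.J i) (s.J j), s.R⟩
  | .jle a b l => ⟨if s.R a ≤ s.R b then l else s.pc + 1, s.J, s.R⟩
  | .ijle i j l => ⟨if s.J i ≤ s.J j then l else s.pc + 1, s.J, s.R⟩

/-- One step of the program `P`; it stops (the state does not change any more) when `pc` leaves the
list of instructions. -/
noncomputable def step (P : List Ins) (s : St) : St :=
  match P[s.pc]? with
  | some I => I.run s
  | none => s

/-- The state after `T` steps of the program `P`, started in the state `s`. -/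
noncomputable def runFor (P : List Ins) (s : St) (T : ℕ) : St := (step P)^[T] s

/-- The degree of an instruction executed in the state `s`: `J k` for a root of a polynomial with
`J k + 1` coefficients (`1` if `J k = 0`), and `1` for all other instructions. -/
def Ins.deg (s : St) : Ins → ℕ
  | .root _ _ k _ => max 1 (s.J k)
  | _ => 1

/-- The degree of the next instruction, `1` if the program has stopped. -/
def degAt (P : List Ins) (s : St) : ℕ :=
  match P[s.pc]? with
  | some I => I.deg s
  | none => 1

/-- The product of the degrees of the instructions executed in the first `T` steps. It is `1` if the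
program has no instruction `root`, and at most `k^r` if `r` roots of polynomials of degree at most
`k ≥ 1` have been taken. -/
noncomputable def rootDegree (P : List Ins) (s : St) (T : ℕ) : ℕ :=
  ∏ t ∈ Finset.range T, degAt P (runFor P s t)

/-! ## Registers stay in a field -/

section

variable {F : Type*} [Field F] [Algebra F ℝ]

private theorem upd_mem (K : IntermediateField F ℝ) {R : ℕ → ℝ} (h : ∀ a, R a ∈ K) (a : ℕ) {c : ℝ}
    (hc : c ∈ K) (b : ℕ) : Function.update R a c b ∈ K := by
  by_cases hb : b = a
  · subst hb
    rw [Function.update_self]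
    exact hc
  · rw [Function.update_of_ne hb]
    exact h b

/-- a root of a polynomial of degree `≤ k` over `K` lies in an extension of degree at most `k` -/
private theorem root_ext (K : IntermediateField F ℝ) [FiniteDimensional F K] (c : ℕ → ℝ)
    (hc : ∀ l, c l ∈ K) (k m : ℕ) : ∃ K' : IntermediateField F ℝ, K ≤ K' ∧ FiniteDimensional F K' ∧
      Module.finrank F K' ≤ Module.finrank F K * max 1 k ∧ realRoot c k m ∈ K' := by
  set p : ℝ[X] := ∑ l ∈ Finset.range (k + 1), C (c l) * X ^ l with hp
  set z := realRoot c k m with hz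
  have htriv : z ∈ K → ∃ K' : IntermediateField F ℝ, K ≤ K' ∧ FiniteDimensional F K' ∧
      Module.finrank F K' ≤ Module.finrank F K * max 1 k ∧ z ∈ K' := fun h =>
    ⟨K, le_rfl, inferInstance, Nat.le_mul_of_pos_right _ (by omega), h⟩
  rcases lt_or_ge m (p.roots.toFinset.sort (· ≤ ·)).length with hm | hm
  swap
  · apply htriv
    have : z = 0 := by
      rw [hz]
      unfold realRoot
      exact List.getD_eq_default _ _ hm
    rw [this]
    exact zero_mem K
  have hmem : z ∈ p.roots := by
    have h1 : z ∈ p.roots.toFinset.sort (· ≤ ·) := by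
      rw [hz]
      unfold realRoot
      rw [List.getD_eq_getElem _ _ hm]
      exact List.getElem_mem hm
    rw [Finset.mem_sort, Multiset.mem_toFinset] at h1
    exact h1
  have hp0 : p ≠ 0 := by
    rintro h0
    rw [h0, roots_zero] at hmem
    exact absurd hmem (Multiset.notMem_zero _)
  have hroot : eval z p = 0 := (mem_roots hp0).1 hmem
  set q : K[X] := ∑ l ∈ Finset.range (k + 1), C (⟨c l, hc l⟩ : K) * X ^ l with hq
  have hqp : q.map (algebraMap K ℝ) = p := by
    rw [hq, hp, Polynomial.map_sum]
    refine Finset.sum_congr rfl fun l _ => ?_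
    rw [Polynomial.map_mul, Polynomial.map_C, Polynomial.map_pow, Polynomial.map_X]
    rfl
  have hq0 : q ≠ 0 := by
    rintro h0
    rw [h0, Polynomial.map_zero] at hqp
    exact hp0 hqp.symm
  have hqz : aeval z q = 0 := by
    rw [← eval_map_algebraMap, hqp, hroot]
  have hqd : q.natDegree ≤ k := by
    rw [hq]
    refine natDegree_sum_le_of_forall_le _ _ fun l hl => ?_
    refine (natDegree_C_mul_X_pow_le _ _).trans ?_
    rw [Finset.mem_range] at hl
    omega
  have hint : IsIntegral K z := (show IsAlgebraic K z from ⟨q, hq0, hqz⟩).isIntegral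
  have hdeg : Module.finrank K (IntermediateField.adjoin K {z}) ≤ k := by
    rw [IntermediateField.adjoin.finrank hint]
    exact (natDegree_le_natDegree (minpoly.degree_le_of_ne_zero K z hq0 hqz)).trans hqd
  have hfin : FiniteDimensional K (IntermediateField.adjoin K {z}) :=
    IntermediateField.adjoin.finiteDimensional hint
  refine ⟨(IntermediateField.adjoin K {z}).restrictScalars F, ?_, ?_, ?_, ?_⟩
  · intro x hx
    rw [IntermediateField.mem_restrictScalars]
    exact (IntermediateField.adjoin K {z}).algebraMap_mem ⟨x, hx⟩
  · exact FiniteDimensional.trans F K (IntermediateField.adjoin K {z})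
  · have h1 : Module.finrank F K * Module.finrank K (IntermediateField.adjoin K {z}) =
        Module.finrank F (IntermediateField.adjoin K {z}) :=
      Module.finrank_mul_finrank F K (IntermediateField.adjoin K {z})
    have h2 : Module.finrank F ((IntermediateField.adjoin K {z}).restrictScalars F) =
        Module.finrank F (IntermediateField.adjoin K {z}) := rfl
    rw [h2, ← h1]
    exact Nat.mul_le_mul_left _ (hdeg.trans (le_max_right _ _))
  · rw [IntermediateField.mem_restrictScalars]
    exact IntermediateField.mem_adjoin_simple_self K z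

private theorem run_ext (K : IntermediateField F ℝ) [FiniteDimensional F K] (I : Ins) (s : St)
    (hI : ∀ a c, I = Ins.const a c → c ∈ K) (h : ∀ a, s.R a ∈ K) :
    ∃ K' : IntermediateField F ℝ, K ≤ K' ∧ FiniteDimensional F K' ∧
      Module.finrank F K' ≤ Module.finrank F K * I.deg s ∧ ∀ b, (I.run s).R b ∈ K' := by
  have triv : I.deg s = 1 → (∀ b, (I.run s).R b ∈ K) → ∃ K' : IntermediateField F ℝ, K ≤ K' ∧
      FiniteDimensional F K' ∧ Module.finrank F K' ≤ Module.finrank F K * I.deg s ∧
      ∀ b, (I.run s).R b ∈ K' := fun h1 h2 =>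
    ⟨K, le_rfl, inferInstance, by rw [h1, mul_one], h2⟩
  cases I with
  | const a c => exact triv rfl (upd_mem K h a (hI a c rfl))
  | add a b' c => exact triv rfl (upd_mem K h a (K.add_mem (h _) (h _)))
  | sub a b' c => exact triv rfl (upd_mem K h a (K.sub_mem (h _) (h _)))
  | mul a b' c => exact triv rfl (upd_mem K h a (K.mul_mem (h _) (h _)))
  | div a b' c => exact triv rfl (upd_mem K h a (K.div_mem (h _) (h _)))
  | root a i k m =>
    obtain ⟨K', h1, h2, h3, h4⟩ := root_ext K (fun l => s.R (s.J i + l)) (fun l => h _) (s.J k)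
      (s.J m)
    exact ⟨K', h1, h2, h3, upd_mem K' (fun b => h1 (h b)) a h4⟩
  | load a i => exact triv rfl (upd_mem K h a (h _))
  | store i a => exact triv rfl (upd_mem K h _ (h _))
  | cast a i => exact triv rfl (upd_mem K h a (natCast_mem K _))
  | floor i a => exact triv rfl h
  | iconst i k => exact triv rfl h
  | iadd i j k => exact triv rfl h
  | isub i j k => exact triv rfl h
  | imul i j k => exact triv rfl h
  | idiv i j k => exact triv rfl h
  | iload i j => exact triv rfl h
  | istore i j => exact triv rfl h
  | jle a b' l => exact triv rfl h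
  | ijle i j l => exact triv rfl h

/-- After `T` steps all real registers lie in an extension of degree at most
`[K : F] * rootDegree P s T` of `F`. -/
theorem run_field (K : IntermediateField F ℝ) [FiniteDimensional F K] (P : List Ins)
    (hP : ∀ a c, Ins.const a c ∈ P → c ∈ K) (s : St) (hs : ∀ a, s.R a ∈ K) (T : ℕ) :
    ∃ K' : IntermediateField F ℝ, K ≤ K' ∧ FiniteDimensional F K' ∧
      Module.finrank F K' ≤ Module.finrank F K * rootDegree P s T ∧
      ∀ b, (runFor P s T).R b ∈ K' := by
  induction T with
  | zero =>
    refine ⟨K, le_rfl, inferInstance, ?_, hs⟩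
    unfold rootDegree
    rw [Finset.prod_range_zero, mul_one]
  | succ T ih =>
    obtain ⟨K', h1, h2, h3, h4⟩ := ih
    have hst : runFor P s (T + 1) = step P (runFor P s T) := by
      unfold runFor
      rw [Function.iterate_succ_apply']
    have hrd : rootDegree P s (T + 1) = rootDegree P s T * degAt P (runFor P s T) := by
      unfold rootDegree
      rw [Finset.prod_range_succ]
    rw [hst, hrd]
    unfold step degAt
    cases hs : P[(runFor P s T).pc]? with
    | none => exact ⟨K', h1, h2, by simpa using h3, h4⟩
    | some I =>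
      obtain ⟨K'', g1, g2, g3, g4⟩ := run_ext K' I (runFor P s T) (by
        rintro a c rfl
        exact h1 (hP a c (List.mem_of_getElem? hs))) h4
      refine ⟨K'', h1.trans g1, g2, ?_, g4⟩
      calc _ ≤ Module.finrank F K' * I.deg (runFor P s T) := g3
        _ ≤ Module.finrank F K * rootDegree P s T * I.deg (runFor P s T) :=
          Nat.mul_le_mul_right _ h3
        _ = _ := by rw [mul_assoc]

end

end QGr
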