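import Pool.Agent.Lib_MP_6b5565_dg.Z3
import Pool.Agent.Lib_MP_6b5565_rr.Field
import Pool.Agent.Lib_MP_6b5565_rr.Model

/-! # Real RAMs cannot construct simple closed quasigeodesics with few roots -/

namespace QGd

open Polynomial QGr

/-- Every simple closed quasigeodesic has an endpoint with an algebraic coordinate of degree at least
`b` (and the same for all rational affine images). -/
theorem algebraic_coord (I : IPoly) (b : ℕ) (h : I.HardS b)
    (hv : ∀ (N : ℕ) [NeZero N] (γ : SCQ I.poly N), ∃ i v, γ.x i = I.poly.pos v)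
    (N : ℕ) [hN : NeZero N] (γ : Desc I.poly N) : ∃ (i : ZMod N) (j : Fin 3),
      ∀ r s : ℚ, s ≠ 0 → IsAlgebraic ℚ ((r : ℝ) + (s : ℝ) * γ.x i j) ∧
        b ≤ (minpoly ℚ ((r : ℝ) + (s : ℝ) * γ.x i j)).natDegree := by
  obtain ⟨N', hN', γ', hγ⟩ := γ.reduce
  obtain ⟨i, d, lam, hc, hx, halg⟩ := h N' γ'
  obtain ⟨j, a, m, hm, hco⟩ := exists_coord I d lam
  obtain ⟨k, hk⟩ := hγ i
  refine ⟨k, j, ?_⟩
  intro r s hs
  have hx' : γ'.x i = AffineMap.lineMap (I.poly.A d) (I.poly.B d) lam := by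
    have e1 : I.poly.B d = pt (I.c (I.tail (I.nxt d))) := by
      show pt (I.c (I.tail (I.inv d))) = _
      rw [I.tail_inv]
    rw [e1]
    exact hx
  obtain ⟨ha, hreal⟩ := I.real_conj γ' (hv N' γ') i d lam hc hx'
  rw [← hk, hx, hco]
  have e : ((r : ℝ) + (s : ℝ) * ((a : ℝ) + (m : ℝ) * lam)) =
      ((r + s * a : ℚ) : ℝ) + ((s * m : ℚ) : ℝ) * lam := by
    push_cast
    ring
  rw [e]
  have hsm : (s * m : ℚ) ≠ 0 := mul_ne_zero hs (by exact_mod_cast hm)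
  obtain ⟨h1, h2, -⟩ := real_affine lam (r + s * a : ℚ) (s * m : ℚ) hsm ha hreal
  exact ⟨h1, by rw [h2]; exact halg ha⟩

/-- The polyhedra. -/
theorem exists_polyhedra : ∃ I : ℕ → IPoly, ∀ n, Fintype.card (I n).V = 216 * n + 749 ∧
    (I n).bits ≤ 10 ^ 6 * (12 * n + 60) ^ 3 ∧
    ∀ (N : ℕ) [NeZero N] (γ : Desc (I n).poly N), ∃ (i : ZMod N) (j : Fin 3),
      ∀ r s : ℚ, s ≠ 0 → IsAlgebraic ℚ ((r : ℝ) + (s : ℝ) * γ.x i j) ∧
        2 ^ n ≤ (minpoly ℚ ((r : ℝ) + (s : ℝ) * γ.x i j)).natDegree := by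
  have hall : ∀ n : ℕ, ∃ I : IPoly, Fintype.card I.V = 216 * n + 749 ∧
    I.bits ≤ 10 ^ 6 * (12 * n + 60) ^ 3 ∧
    ∀ (N : ℕ) [NeZero N] (γ : Desc I.poly N), ∃ (i : ZMod N) (j : Fin 3),
      ∀ r s : ℚ, s ≠ 0 → IsAlgebraic ℚ ((r : ℝ) + (s : ℝ) * γ.x i j) ∧
        2 ^ n ≤ (minpoly ℚ ((r : ℝ) + (s : ℝ) * γ.x i j)).natDegree := by
    intro n
    obtain ⟨M, hS, hM⟩ := exists_msh (12 * n + 40)
    refine ⟨M.I, ?_, bits_le (12 * n + 40) M hS, ?_⟩
    · have h1 : Fintype.card M.I.V = 11 + 18 * ((12 * n + 40) + 1) := card_Vx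
      rw [h1]
      ring
    · intro N _ γ
      obtain ⟨i, j, h⟩ := algebraic_coord M.I _ (hardS_exp n M hM) (by
        intro N _ γ
        obtain ⟨i, b, h⟩ := visits_base γ
        exact ⟨i, Vx.base b, h⟩) N γ
      exact ⟨i, j, fun r s hs => ⟨(h r s hs).1, le_trans (by omega) (h r s hs).2⟩⟩
  choose I hI using hall
  exact ⟨I, hI⟩

/-- THE THEOREM. -/
theorem real_ram : ∃ I : ℕ → IPoly,
    (∀ n, Fintype.card (I n).V = 216 * n + 749 ∧ (I n).bits ≤ 10 ^ 6 * (12 * n + 60) ^ 3) ∧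
    ∀ P : List Ins, ∃ c : ℕ, ∀ load : IPoly → QGr.St,
      (∀ (Q : IPoly) (a : ℕ), ∃ q : ℚ, (load Q).R a = (q : ℝ)) →
      ∀ (n T N : ℕ) [NeZero N] (γ : Desc (I n).poly N),
        (∀ (i : ZMod N) (j : Fin 3), ∃ (a : ℕ) (r s : ℚ), s ≠ 0 ∧
          (runFor P (load (I n)) T).R a = (r : ℝ) + (s : ℝ) * γ.x i j) →
        2 ^ n ≤ c * rootDegree P (load (I n)) T := by
  obtain ⟨I, hI⟩ := exists_polyhedra
  refine ⟨I, fun n => ⟨(hI n).1, (hI n).2.1⟩, fun P => ?_⟩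
  set S : Set ℝ := {c | ∃ a, Ins.const a c ∈ P} with hS
  have hfin : S.Finite := by
    classical
    have h1 : {J | J ∈ P}.Finite := by
      have h2 : {J | J ∈ P} = (P.toFinset : Set Ins) := by
        ext J
        simp
      rw [h2]
      exact Finset.finite_toSet _
    refine (h1.image (fun J => match J with
      | Ins.const _ c => c
      | _ => (0 : ℝ))).subset ?_
    rintro c ⟨a, h⟩
    exact ⟨Ins.const a c, h, rfl⟩
  obtain ⟨L, hL1, hL2⟩ := exists_base S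
  have : Finite S := hfin
  have hK : FiniteDimensional L (IntermediateField.adjoin L S) :=
    IntermediateField.finiteDimensional_adjoin fun x hx => (hL1 x hx).isIntegral
  refine ⟨Module.finrank L (IntermediateField.adjoin L S), fun load hl n T N _ γ hγ => ?_⟩
  obtain ⟨i, j, h⟩ := (hI n).2.2 N γ
  obtain ⟨a, r, s, hs, ha⟩ := hγ i j
  obtain ⟨halg, hdeg⟩ := h r s hs
  obtain ⟨K', -, hfd, hle, hmem⟩ := run_field (IntermediateField.adjoin L S) P
    (fun a c hc => IntermediateField.subset_adjoin L S ⟨a, hc⟩) (load (I n)) (by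
      intro a
      obtain ⟨q, hq⟩ := hl (I n) a
      rw [hq]
      exact SubfieldClass.ratCast_mem _ q) T
  set y : ℝ := (r : ℝ) + (s : ℝ) * γ.x i j with hy
  have hyK : y ∈ K' := ha ▸ hmem a
  have h1 : (minpoly L y).natDegree ≤ Module.finrank L K' := by
    have hmin : minpoly L y = minpoly L (⟨y, hyK⟩ : K') :=
      (minpoly.algHom_eq K'.val K'.val.injective (⟨y, hyK⟩ : K')).symm ▸ rfl
    rw [hmin]
    exact minpoly.natDegree_le _
  exact hdeg.trans ((hL2 y halg).trans (h1.trans hle))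

end QGd
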